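import Pool.Agent.Lib_helper95.KV.Arb

/-!
# Arborescent links of plane trees whose vertices have weight at least `5` or degree at least `13`:
definitions
-/

set_option autoImplicit false

namespace Pool.Agent.TR6.KV

open Pool.Agent.KV

/-- The diagrams of plane forests with `n` trees and integer weights; the weight of every vertex is
at least `5` in absolute value, or at least thirteen edges meet at it (the edge above it included). The
diagram consists of the tangles of its trees, each turned by a right angle, on top of each other. The
tangle of a tree with root of weight `a` is a twist region of `|a|` crossings followed by the tangle
of the forest `F` of the subtrees of the root. -/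
inductive Forest : ℕ → List Piece → Prop
  | nil : Forest 0 []
  | cons (a : ℤ) (m n : ℕ) (F G : List Piece) : Forest m F → Forest n G → 5 ≤ |a| ∨ 13 ≤ m + 1 →
      Forest (n + 1) (.cup 2 :: ((.twist 0 a :: F).map shift ++ .cap 0 :: G))

end Pool.Agent.TR6.KV
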