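import Pool.Agent.Lib_helper43.TR5.D1

/-!
# TREE5*: the interface between the analysis and the geometry

Every vertex has a weight of absolute value at least `5`, or at least thirteen edges.
-/

set_option autoImplicit false

open Filter Topology

namespace Pool.Agent.TR6

open Pool.Agent.TB

/-- every vertex has a weight of absolute value at least `5`, or at least thirteen edges (the edge
above it included) -/
def Fiv : Forest → Prop
  | .nil => True
  | .cons a F G => (5 ≤ |a| ∨ 13 ≤ width F + 1) ∧ Fiv F ∧ Fiv G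

/-- **(ASY)** -/
def AsyT : Prop := ∀ (a : ℤ) (F : Forest), F ≠ .nil → 5 ≤ |a| ∨ 13 ≤ width F → Fiv F →
  ∃ (w : ℂ) (L : Lab) (C : ℂ), C ≠ 0 ∧ Pool.Agent.TR5.CritRootD a F w L ∧
    Tendsto (fun N : ℕ => (N : ℂ) ^ (-3 / 2 : ℂ) * Complex.exp (-(N * actRoot a F w L)) *
      (om N a * M N a (RF N F))) atTop (𝓝 C)

end Pool.Agent.TR6
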